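import Pool.Agent.Helper72.OWN.SimsunDefs

/-!
# Counting simsun permutations by descents: the recursion (MP_9cb2a9_co)
-/

set_option autoImplicit false

open scoped Classical

namespace Pool.Agent.Helper72.OWN

theorem ndd_nil : NoDoubleDescent [] := by
  intro u v x y z h
  have := congrArg List.length h
  simp at this

theorem ndd_one (a : ℕ) : NoDoubleDescent [a] := by
  intro u v x y z h
  have := congrArg List.length h
  simp at this
  omega

theorem ndd_two (a c : ℕ) : NoDoubleDescent [a, c] := by
  intro u v x y z h
  have := congrArg List.length h
  simp at this
  omega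

theorem ndd_cons (a c e : ℕ) (w : List ℕ) :
    NoDoubleDescent (a :: c :: e :: w) ↔ ¬ (a > c ∧ c > e) ∧ NoDoubleDescent (c :: e :: w) := by
  constructor
  · intro h
    refine ⟨h [] w a c e rfl, ?_⟩
    intro u v x y z hu
    exact h (a :: u) v x y z (by rw [hu]; rfl)
  · rintro ⟨h1, h2⟩ u v x y z hu
    cases u with
    | nil =>
      simp only [List.nil_append, List.cons.injEq] at hu
      obtain ⟨rfl, rfl, rfl, -⟩ := hu
      exact h1
    | cons p u =>
      simp only [List.cons_append, List.cons.injEq] at hu
      exact h2 u v x y z hu.2

theorem ndd_tail (a : ℕ) (w : List ℕ) (h : NoDoubleDescent (a :: w)) : NoDoubleDescent w := by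
  intro u v x y z hu
  exact h (a :: u) v x y z (by rw [hu]; rfl)

theorem ndd_cons_of_le (a c : ℕ) (w : List ℕ) (hac : ¬ a > c) :
    NoDoubleDescent (a :: c :: w) ↔ NoDoubleDescent (c :: w) := by
  cases w with
  | nil => exact ⟨fun _ => ndd_one c, fun _ => ndd_two a c⟩
  | cons e w =>
    rw [ndd_cons]
    constructor
    · exact fun h => h.2
    · exact fun h => ⟨fun h' => hac h'.1, h⟩

/-- the number of descents of `a :: c :: w` -/
theorem des_cons (a c : ℕ) (w : List ℕ) :
    descents (a :: c :: w) = (if a > c then 1 else 0) + descents (c :: w) := rfl

/-- `1` if `x` does not start a descent of `x :: w` -/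
def flag (x : ℕ) : List ℕ → ℤ
  | [] => 1
  | y :: _ => if x > y then 0 else 1

/-- the insertion lemma, without the first position -/
theorem insert_tail (M : ℕ) : ∀ (ws : List ℕ) (x : ℕ), (∀ y ∈ x :: ws, y < M) →
    NoDoubleDescent (x :: ws) → ∀ d : ℕ,
    (((List.permutations'Aux M ws).countP
      (fun v => decide (NoDoubleDescent (x :: v) ∧ descents (x :: v) = d)) : ℕ) : ℤ) =
      (if descents (x :: ws) = d then (d : ℤ) + 1 else 0) +
      (if descents (x :: ws) + 1 = d then
        (((x :: ws).length : ℕ) : ℤ) - 2 * (descents (x :: ws) : ℤ) - flag x ws else 0) := by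
  intro ws
  induction ws with
  | nil =>
    intro x hx _ d
    have hxM : ¬ x > M := by
      have := hx x (by simp)
      omega
    have h1 : NoDoubleDescent [x, M] := ndd_two x M
    have h2 : descents [x, M] = 0 := by
      rw [des_cons, if_neg hxM]; rfl
    have h3 : descents [x] = 0 := rfl
    simp only [List.permutations'Aux, List.countP_singleton, h1, h2, h3, true_and, flag]
    by_cases hd : 0 = d
    · subst hd
      simp
    · rw [if_neg hd]
      simp [hd]
  | cons y ws ih =>
    intro x hx hn d
    have hyM : y < M := hx y (by simp)
    have hxM : ¬ x > M := by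
      have := hx x (by simp)
      omega
    have hMy : M > y := hyM
    have ih' := ih y (fun z hz => hx z (by simp only [List.mem_cons] at hz ⊢; tauto)) (ndd_tail _ _ hn)
    have e1 : NoDoubleDescent (x :: M :: y :: ws) ↔ flag y ws = 1 := by
      rw [ndd_cons_of_le x M _ hxM]
      cases ws with
      | nil => exact ⟨fun _ => rfl, fun _ => ndd_two M y⟩
      | cons z ws =>
        rw [ndd_cons]
        simp only [flag]
        constructor
        · rintro ⟨h, -⟩
          rw [if_neg (fun h' => h ⟨hMy, h'⟩)]
        · intro h
          refine ⟨fun h' => ?_, ndd_tail _ _ hn⟩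
          rw [if_pos h'.2] at h
          exact absurd h (by norm_num)
    have e2 : descents (x :: M :: y :: ws) = 1 + descents (y :: ws) := by
      rw [des_cons, des_cons, if_neg hxM, if_pos hMy]
      omega
    rw [List.permutations'Aux, List.countP_cons, List.countP_map, e2]
    simp only [e1, decide_eq_true_eq]
    by_cases hxy : x > y
    · -- a descent at `x`
      have hfl : flag y ws = 1 := by
        cases ws with
        | nil => rfl
        | cons z ws =>
          have := ((ndd_cons x y z ws).1 hn).1
          simp only [flag]
          rw [if_neg (fun h => this ⟨hxy, h⟩)]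
      have hflx : flag x (y :: ws) = 0 := by
        simp only [flag]; rw [if_pos hxy]
      have hdes : descents (x :: y :: ws) = 1 + descents (y :: ws) := by
        rw [des_cons, if_pos hxy]
      have hcong : ∀ v ∈ List.permutations'Aux M ws,
          (NoDoubleDescent (x :: y :: v) ∧ descents (x :: y :: v) = d ↔
            NoDoubleDescent (y :: v) ∧ descents (y :: v) + 1 = d) := by
        intro v hv
        have hhead : ∃ z v', v = z :: v' ∧ ¬ y > z := by
          cases ws with
          | nil =>
            simp only [List.permutations'Aux, List.mem_singleton] at hv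
            exact ⟨M, [], hv, by omega⟩
          | cons z ws =>
            rw [List.permutations'Aux, List.mem_cons, List.mem_map] at hv
            rcases hv with hv | ⟨v', -, hv⟩
            · exact ⟨M, z :: ws, hv, by omega⟩
            · refine ⟨z, v', hv.symm, ?_⟩
              intro h
              exact ((ndd_cons x y z ws).1 hn).1 ⟨hxy, h⟩
        obtain ⟨z, v', rfl, hz⟩ := hhead
        rw [ndd_cons, des_cons, if_pos hxy]
        constructor
        · rintro ⟨⟨-, h1⟩, h2⟩
          exact ⟨h1, by omega⟩
        · rintro ⟨h1, h2⟩
          exact ⟨⟨fun h => hz h.2, h1⟩, by omega⟩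
      have hcount : (List.permutations'Aux M ws).countP
          ((fun v => decide (NoDoubleDescent (x :: v) ∧ descents (x :: v) = d)) ∘ List.cons y) =
          (List.permutations'Aux M ws).countP
            (fun v => decide (NoDoubleDescent (y :: v) ∧ descents (y :: v) + 1 = d)) := by
        apply List.countP_congr
        intro v hv
        simp only [Function.comp, decide_eq_true_eq]
        exact hcong v hv
      rw [hcount, hfl, hflx, hdes]
      rcases Nat.eq_zero_or_pos d with hd | hd
      · subst hd
        simp
      · obtain ⟨e, rfl⟩ : ∃ e, d = e + 1 := ⟨d - 1, by omega⟩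
        have hcount2 : (List.permutations'Aux M ws).countP
            (fun v => decide (NoDoubleDescent (y :: v) ∧ descents (y :: v) + 1 = e + 1)) =
            (List.permutations'Aux M ws).countP
            (fun v => decide (NoDoubleDescent (y :: v) ∧ descents (y :: v) = e)) := by
          apply List.countP_congr
          intro v hv
          simp only [decide_eq_true_eq, Nat.add_right_cancel_iff]
        rw [hcount2, Nat.cast_add, ih' e, hfl]
        simp only [List.length_cons, true_and, Nat.cast_add, Nat.cast_one]
        by_cases h1 : descents (y :: ws) = e
        · have h2 : 1 + descents (y :: ws) = e + 1 := by omega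
          have h3 : ¬ descents (y :: ws) + 1 = e := by omega
          have h4 : ¬ 1 + descents (y :: ws) + 1 = e + 1 := by omega
          rw [if_pos h1, if_pos h2, if_neg h3, if_neg h4, if_pos h2]
          push_cast
          ring
        · have h2 : ¬ 1 + descents (y :: ws) = e + 1 := by omega
          by_cases h3 : descents (y :: ws) + 1 = e
          · have h4 : 1 + descents (y :: ws) + 1 = e + 1 := by omega
            rw [if_neg h1, if_neg h2, if_pos h3, if_pos h4, if_neg h2]
            push_cast
            ring
          · have h4 : ¬ 1 + descents (y :: ws) + 1 = e + 1 := by omega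
            rw [if_neg h1, if_neg h2, if_neg h3, if_neg h4, if_neg h2]
            simp
    · -- no descent at `x`
      have hflx : flag x (y :: ws) = 1 := by
        simp only [flag]; rw [if_neg hxy]
      have hdes : descents (x :: y :: ws) = descents (y :: ws) := by
        rw [des_cons, if_neg hxy]; omega
      have hcount : (List.permutations'Aux M ws).countP
          ((fun v => decide (NoDoubleDescent (x :: v) ∧ descents (x :: v) = d)) ∘ List.cons y) =
          (List.permutations'Aux M ws).countP
            (fun v => decide (NoDoubleDescent (y :: v) ∧ descents (y :: v) = d)) := by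
        apply List.countP_congr
        intro v hv
        simp only [Function.comp, decide_eq_true_eq]
        rw [ndd_cons_of_le x y v hxy, des_cons, if_neg hxy, Nat.zero_add]
      rw [hcount, Nat.cast_add, ih' d, hflx, hdes]
      simp only [List.length_cons, Nat.cast_add, Nat.cast_one]
      have hflag : flag y ws = 1 ∨ flag y ws = 0 := by
        cases ws with
        | nil => left; rfl
        | cons z ws =>
          simp only [flag]
          by_cases h : y > z
          · right; rw [if_pos h]
          · left; rw [if_neg h]
      by_cases h1 : descents (y :: ws) = d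
      · have h3 : ¬ descents (y :: ws) + 1 = d := by omega
        have h4 : ¬ (flag y ws = 1 ∧ 1 + descents (y :: ws) = d) := by omega
        rw [if_pos h1, if_neg h3, if_neg h3, if_neg h4]
        simp
      · by_cases h3 : descents (y :: ws) + 1 = d
        · have h2 : 1 + descents (y :: ws) = d := by omega
          rw [if_neg h1, if_pos h3, if_pos h3]
          rcases hflag with hf | hf
          · rw [if_pos ⟨hf, h2⟩, hf]
            push_cast
            ring
          · rw [if_neg (fun h => by rw [hf] at h; exact absurd h.1 (by norm_num)), hf]
            push_cast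
            ring
        · have h2 : ¬ (flag y ws = 1 ∧ 1 + descents (y :: ws) = d) := by omega
          rw [if_neg h1, if_neg h3, if_neg h3, if_neg h2]
          simp

/-- the insertion lemma -/
theorem insert_count (M : ℕ) (w : List ℕ) (hw : ∀ y ∈ w, y < M) (hn : NoDoubleDescent w) (d : ℕ) :
    (((List.permutations'Aux M w).countP
      (fun v => decide (NoDoubleDescent v ∧ descents v = d)) : ℕ) : ℤ) =
      (if descents w = d then (d : ℤ) + 1 else 0) +
      (if descents w + 1 = d then (w.length : ℤ) - 2 * (descents w : ℤ) else 0) := by
  cases w with
  | nil =>
    have h2 : descents [M] = 0 := rfl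
    have h3 : descents [] = 0 := rfl
    simp only [List.permutations'Aux, List.countP_singleton, ndd_one, h2, h3, true_and]
    by_cases hd : 0 = d
    · subst hd
      simp
    · rw [if_neg hd]
      simp [hd]
  | cons x ws =>
    have hMx : M > x := hw x (by simp)
    have e1 : NoDoubleDescent (M :: x :: ws) ↔ flag x ws = 1 := by
      cases ws with
      | nil => exact ⟨fun _ => rfl, fun _ => ndd_two M x⟩
      | cons z ws =>
        rw [ndd_cons]
        simp only [flag]
        constructor
        · rintro ⟨h, -⟩
          rw [if_neg (fun h' => h ⟨hMx, h'⟩)]
        · intro h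
          refine ⟨fun h' => ?_, hn⟩
          rw [if_pos h'.2] at h
          exact absurd h (by norm_num)
    have e2 : descents (M :: x :: ws) = 1 + descents (x :: ws) := by
      rw [des_cons, if_pos hMx]
    rw [List.permutations'Aux, List.countP_cons, List.countP_map, e2]
    simp only [e1, decide_eq_true_eq]
    have hcount : (List.permutations'Aux M ws).countP
          ((fun v => decide (NoDoubleDescent v ∧ descents v = d)) ∘ List.cons x) =
          (List.permutations'Aux M ws).countP
            (fun v => decide (NoDoubleDescent (x :: v) ∧ descents (x :: v) = d)) := rfl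
    rw [hcount, Nat.cast_add, insert_tail M ws x hw hn d]
    have hflag : flag x ws = 1 ∨ flag x ws = 0 := by
      cases ws with
      | nil => left; rfl
      | cons z ws =>
        simp only [flag]
        by_cases h : x > z
        · right; rw [if_pos h]
        · left; rw [if_neg h]
    by_cases h3 : descents (x :: ws) + 1 = d
    · have h2 : 1 + descents (x :: ws) = d := by omega
      have h1 : ¬ descents (x :: ws) = d := by omega
      rw [if_neg h1, if_pos h3, if_pos h3]
      rcases hflag with hf | hf
      · rw [if_pos ⟨hf, h2⟩, hf]
        push_cast
        ring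
      · rw [if_neg (fun h => by rw [hf] at h; exact absurd h.1 (by norm_num)), hf]
        push_cast
        ring
    · have h2 : ¬ (flag x ws = 1 ∧ 1 + descents (x :: ws) = d) := by omega
      rw [if_neg h3, if_neg h3, if_neg h2]
      simp

end Pool.Agent.Helper72.OWN
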