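import Mathlib

/-!
# Simsun permutations and the numbers `b_i(n)` (MP_9cb2a9_co): definitions
-/

set_option autoImplicit false

namespace Pool.Agent.Helper72.OWN

/-- the binomial coefficient of the integers `p` and `q`, equal to `0` if `q < 0` or `q > p` -/
def bin (p q : ℤ) : ℤ := if 0 ≤ q ∧ q ≤ p then ((p.toNat.choose q.toNat : ℕ) : ℤ) else 0

/-- the numbers `b_i(n)`: `b_2(n) = 1` for `n ≥ 2`, `b_i(n) = 0` unless `2 ≤ i ≤ n`, and the recursion of
the problem for `3 ≤ i ≤ n` -/
def b (i n : ℕ) : ℤ :=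
  if i = 2 ∧ 2 ≤ n then 1
  else if 3 ≤ i ∧ i ≤ n then
    ∑ s ∈ Finset.range (i + 1), bin (2 * (n : ℤ) - 2 * (i : ℤ) + s) s *
      ∑ t ∈ (Finset.Icc 1 n).attach,
        (-1) ^ (t.1 + 1) * bin ((i : ℤ) - s) ((i : ℤ) - 2 * (t.1 : ℤ)) * b (i - s) (n - t.1)
  else 0
termination_by n
decreasing_by
  have := Finset.mem_Icc.1 t.2
  omega

/-- no three consecutive letters `x > y > z` -/
def NoDoubleDescent (w : List ℕ) : Prop :=
  ∀ (u v : List ℕ) (x y z : ℕ), w = u ++ x :: y :: z :: v → ¬ (x > y ∧ y > z)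

/-- for every `k` the word of the letters `≤ k` of `w` has no double descent -/
def Simsun (w : List ℕ) : Prop := ∀ k : ℕ, NoDoubleDescent (w.filter (fun x => x ≤ k))

/-- the number of descents of a word -/
def descents : List ℕ → ℕ
  | [] => 0
  | [_] => 0
  | x :: y :: w => (if x > y then 1 else 0) + descents (y :: w)

/-- the number of simsun permutations of `1, ..., m`, written as words, with `d` descents -/
noncomputable def simsunNumber (m d : ℕ) : ℕ :=
  Set.ncard {w : List ℕ | w.Perm (List.range' 1 m) ∧ Simsun w ∧ descents w = d}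

end Pool.Agent.Helper72.OWN
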