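import Pool.Agent.Helper72.OWN.SimsunCount
import Pool.Agent.Helper40.Simsun

/-!
# The numbers `b_i(n)` are at most the simsun numbers (MP_9cb2a9_co)
-/

set_option autoImplicit false

open scoped Classical

namespace Pool.Agent.Helper72.OWN

/-- the word `m, m - 1, ..., 1` -/
def desc : ℕ → List ℕ
  | 0 => []
  | m + 1 => (m + 1) :: desc m

theorem mem_desc (m x : ℕ) : x ∈ desc m ↔ 1 ≤ x ∧ x ≤ m := by
  induction m with
  | zero => simp [desc]; omega
  | succ m ih =>
    rw [desc, List.mem_cons, ih]
    omega

theorem nodup_desc (m : ℕ) : (desc m).Nodup := by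
  induction m with
  | zero => simp [desc]
  | succ m ih =>
    rw [desc, List.nodup_cons]
    refine ⟨?_, ih⟩
    rw [mem_desc]
    omega

theorem length_desc (m : ℕ) : (desc m).length = m := by
  induction m with
  | zero => rfl
  | succ m ih => rw [desc, List.length_cons, ih]

theorem desc_perm (m : ℕ) : (desc m).Perm (List.range' 1 m) := by
  rw [List.perm_ext_iff_of_nodup (nodup_desc m) List.nodup_range']
  intro x
  rw [mem_desc, List.mem_range'_1]
  omega

/-- the count of simsun permutations over the list of all permutations -/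
noncomputable def F (m d : ℕ) : ℕ :=
  (List.permutations' (desc m)).countP (fun w => decide (Simsun w ∧ descents w = d))

theorem simsunNumber_eq (m d : ℕ) : simsunNumber m d = F m d := by
  have hnd : (List.permutations' (desc m)).Nodup :=
    (List.permutations_perm_permutations' (desc m)).nodup_iff.1
      (List.nodup_permutations _ (nodup_desc m))
  have hset : {w : List ℕ | w.Perm (List.range' 1 m) ∧ Simsun w ∧ descents w = d} =
      (((List.permutations' (desc m)).filter
        (fun w => decide (Simsun w ∧ descents w = d))).toFinset : Set (List ℕ)) := by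
    ext w
    simp only [Set.mem_ofPred_eq, List.coe_toFinset, List.mem_filter, List.mem_permutations',
      decide_eq_true_eq]
    constructor
    · rintro ⟨h1, h2⟩
      exact ⟨h1.trans (desc_perm m).symm, h2⟩
    · rintro ⟨h1, h2⟩
      exact ⟨h1.trans (desc_perm m), h2⟩
  rw [simsunNumber, hset, Set.ncard_coe_finset, List.toFinset_card_of_nodup (hnd.filter _), F,
    List.countP_eq_length_filter]

/-- inserting `M` does not change the word of the letters `≤ k` for `k < M` -/
theorem filter_insert (M k : ℕ) (hk : k < M) : ∀ (w v : List ℕ), v ∈ List.permutations'Aux M w →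
    v.filter (fun x => x ≤ k) = w.filter (fun x => x ≤ k) := by
  intro w
  induction w with
  | nil =>
    intro v hv
    simp only [List.permutations'Aux, List.mem_singleton] at hv
    subst hv
    have : ¬ M ≤ k := by omega
    simp [this]
  | cons x w ih =>
    intro v hv
    rw [List.permutations'Aux, List.mem_cons, List.mem_map] at hv
    rcases hv with rfl | ⟨v', hv', rfl⟩
    · have : ¬ M ≤ k := by omega
      rw [List.filter_cons]
      simp [this]
    · rw [List.filter_cons, List.filter_cons, ih v' hv']

theorem mem_insert (M : ℕ) : ∀ (w v : List ℕ), v ∈ List.permutations'Aux M w →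
    ∀ x ∈ v, x = M ∨ x ∈ w := by
  intro w
  induction w with
  | nil =>
    intro v hv x hx
    simp only [List.permutations'Aux, List.mem_singleton] at hv
    subst hv
    left
    simpa using hx
  | cons y w ih =>
    intro v hv x hx
    rw [List.permutations'Aux, List.mem_cons, List.mem_map] at hv
    rcases hv with rfl | ⟨v', hv', rfl⟩
    · simpa using hx
    · rw [List.mem_cons] at hx
      rcases hx with rfl | hx
      · right; simp
      · rcases ih v' hv' x hx with h | h
        · left; exact h
        · right; exact List.mem_cons_of_mem _ h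

theorem filter_all (w : List ℕ) (k : ℕ) (hw : ∀ x ∈ w, x ≤ k) : w.filter (fun x => x ≤ k) = w := by
  rw [List.filter_eq_self]
  intro x hx
  simpa using hw x hx

/-- a simsun word has no double descent -/
theorem simsun_ndd (w : List ℕ) (k : ℕ) (hw : ∀ x ∈ w, x ≤ k) (h : Simsun w) : NoDoubleDescent w := by
  have := h k
  rwa [filter_all w k hw] at this

theorem simsun_insert (m : ℕ) (w v : List ℕ) (hw : ∀ x ∈ w, x ≤ m)
    (hv : v ∈ List.permutations'Aux (m + 1) w) : Simsun v ↔ Simsun w ∧ NoDoubleDescent v := by
  have hvm : ∀ x ∈ v, x ≤ m + 1 := by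
    intro x hx
    rcases mem_insert (m + 1) w v hv x hx with h | h
    · omega
    · have := hw x h
      omega
  constructor
  · intro h
    refine ⟨?_, simsun_ndd v (m + 1) hvm h⟩
    intro k
    by_cases hk : k ≤ m
    · rw [← filter_insert (m + 1) k (by omega) w v hv]
      exact h k
    · rw [filter_all w k (fun x hx => (hw x hx).trans (by omega))]
      have := h m
      rwa [filter_insert (m + 1) m (by omega) w v hv, filter_all w m hw] at this
  · rintro ⟨h1, h2⟩ k
    by_cases hk : k ≤ m
    · rw [filter_insert (m + 1) k (by omega) w v hv]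
      exact h1 k
    · rw [filter_all v k (fun x hx => (hvm x hx).trans (by omega))]
      exact h2

/-- a sum over a list of words -/
theorem countP_flatMap_eq (g : List ℕ → List (List ℕ)) (P Q R : List ℕ → Bool) (s t : ℤ) :
    ∀ L : List (List ℕ), (∀ w ∈ L, (((g w).countP P : ℕ) : ℤ) =
      (if Q w then s else 0) + (if R w then t else 0)) →
    (((L.flatMap g).countP P : ℕ) : ℤ) = s * ((L.countP Q : ℕ) : ℤ) + t * ((L.countP R : ℕ) : ℤ) := by
  intro L
  induction L with
  | nil => intro _; simp
  | cons w L ih =>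
    intro h
    have h1 := h w (by simp)
    have h2 := ih (fun u hu => h u (List.mem_cons_of_mem _ hu))
    rw [List.flatMap_cons, List.countP_append, Nat.cast_add, h1, h2, List.countP_cons,
      List.countP_cons, Nat.cast_add, Nat.cast_add]
    by_cases hq : Q w = true
    · by_cases hr : R w = true
      · simp only [hq, hr, if_true, Nat.cast_one]; ring
      · simp only [hq, hr, if_true, Nat.cast_one]; simp; ring
    · by_cases hr : R w = true
      · simp only [hq, hr, if_true, Nat.cast_one]; simp; ring
      · simp only [hq, hr]; simp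


theorem mem_perm_le (m : ℕ) (w : List ℕ) (hw : w ∈ List.permutations' (desc m)) :
    (∀ x ∈ w, x ≤ m) ∧ w.length = m := by
  rw [List.mem_permutations'] at hw
  constructor
  · intro x hx
    exact ((mem_desc m x).1 (hw.mem_iff.1 hx)).2
  · rw [hw.length_eq, length_desc]

/-- the local count -/
theorem local_count (m d : ℕ) (w : List ℕ) (hw : w ∈ List.permutations' (desc m)) :
    (((List.permutations'Aux (m + 1) w).countP
      (fun v => decide (Simsun v ∧ descents v = d)) : ℕ) : ℤ) =
      (if Simsun w ∧ descents w = d then (d : ℤ) + 1 else 0) +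
      (if Simsun w ∧ descents w + 1 = d then (m : ℤ) - 2 * ((d : ℤ) - 1) else 0) := by
  obtain ⟨hle, hlen⟩ := mem_perm_le m w hw
  by_cases hs : Simsun w
  · have h1 : (List.permutations'Aux (m + 1) w).countP
        (fun v => decide (Simsun v ∧ descents v = d)) =
        (List.permutations'Aux (m + 1) w).countP
        (fun v => decide (NoDoubleDescent v ∧ descents v = d)) := by
      apply List.countP_congr
      intro v hv
      simp only [decide_eq_true_eq]
      rw [simsun_insert m w v hle hv]
      tauto
    rw [h1, insert_count (m + 1) w (fun y hy => by have := hle y hy; omega)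
      (simsun_ndd w m hle hs) d, hlen]
    simp only [hs, true_and]
    congr 1
    by_cases h : descents w + 1 = d
    · rw [if_pos h, if_pos h, ← h]
      push_cast
      ring
    · rw [if_neg h, if_neg h]
  · have h1 : (List.permutations'Aux (m + 1) w).countP
        (fun v => decide (Simsun v ∧ descents v = d)) = 0 := by
      rw [List.countP_eq_zero]
      intro v hv h
      rw [decide_eq_true_eq, simsun_insert m w v hle hv] at h
      exact hs h.1.1
    rw [h1]
    simp [hs]

theorem F_rec (m d : ℕ) : (F (m + 1) (d + 1) : ℤ) =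
    ((d : ℤ) + 2) * F m (d + 1) + ((m : ℤ) - 2 * d) * F m d := by
  have h := countP_flatMap_eq (List.permutations'Aux (m + 1))
    (fun v => decide (Simsun v ∧ descents v = d + 1))
    (fun v => decide (Simsun v ∧ descents v = d + 1))
    (fun v => decide (Simsun v ∧ descents v = d)) ((d : ℤ) + 2) ((m : ℤ) - 2 * d)
    (List.permutations' (desc m)) (by
      intro w hw
      rw [local_count m (d + 1) w hw]
      simp only [decide_eq_true_eq, Nat.add_right_cancel_iff]
      have t1 : (((d + 1 : ℕ) : ℤ) + 1) = (d : ℤ) + 2 := by push_cast; ring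
      have t2 : (m : ℤ) - 2 * (((d + 1 : ℕ) : ℤ) - 1) = (m : ℤ) - 2 * d := by push_cast; ring
      rw [t1, t2])
  exact h

theorem F_rec_zero (m : ℕ) : (F (m + 1) 0 : ℤ) = F m 0 := by
  have h := countP_flatMap_eq (List.permutations'Aux (m + 1))
    (fun v => decide (Simsun v ∧ descents v = 0))
    (fun v => decide (Simsun v ∧ descents v = 0))
    (fun _ => false) 1 0
    (List.permutations' (desc m)) (by
      intro w hw
      rw [local_count m 0 w hw]
      simp)
  rw [one_mul, zero_mul, add_zero] at h
  exact h

theorem F_zero_zero : F 0 0 = 1 := by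
  have h : Simsun [] := fun k => ndd_nil
  simp [F, desc, List.permutations', descents, h]

theorem F_zero_succ (d : ℕ) : F 0 (d + 1) = 0 := by
  simp [F, desc, List.permutations', descents]

theorem F_vanish : ∀ m d : ℕ, m < 2 * d → F m d = 0 := by
  intro m
  induction m with
  | zero =>
    intro d hd
    obtain ⟨e, rfl⟩ : ∃ e, d = e + 1 := ⟨d - 1, by omega⟩
    exact F_zero_succ e
  | succ m ih =>
    intro d hd
    obtain ⟨e, rfl⟩ : ∃ e, d = e + 1 := ⟨d - 1, by omega⟩
    have h := F_rec m e
    rw [ih (e + 1) (by omega)] at h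
    by_cases he : m = 2 * e
    · subst he
      push_cast at h
      have : (F (2 * e + 1) (e + 1) : ℤ) = 0 := by rw [h]; ring
      exact_mod_cast this
    · rw [ih e (by omega)] at h
      have : (F (m + 1) (e + 1) : ℤ) = 0 := by rw [h]; simp
      exact_mod_cast this

/-- the array `a` of the problem, made of the simsun numbers -/
noncomputable def aArr (j m : ℕ) : ℤ :=
  if j = 0 then (if m = 1 then 1 else 0) else if m < 2 then 0 else (F (m - 2) (j - 1) : ℤ)

theorem aArr_isA : Pool.Agent.Helper40.Simsun.IsA aArr where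
  h01 := by simp [aArr]
  h12 := by simp [aArr, F_zero_zero]
  h0 := by
    intro n hn
    have : ¬ n = 1 := by omega
    simp [aArr, this]
  hz := by
    intro i n hin
    have hi : ¬ i = 0 := by omega
    simp only [aArr, if_neg hi]
    by_cases hn : n < 2
    · rw [if_pos hn]
    · rw [if_neg hn, F_vanish (n - 2) (i - 1) (by omega)]
      rfl
  hrec := by
    intro i n hi hn
    obtain ⟨d, rfl⟩ : ∃ d, i = d + 1 := ⟨i - 1, by omega⟩
    by_cases hn1 : n = 1
    · subst hn1
      cases d with
      | zero => simp [aArr, F_zero_zero]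
      | succ d => simp [aArr, F_zero_succ]
    · obtain ⟨m, rfl⟩ : ∃ m, n = m + 2 := ⟨n - 2, by omega⟩
      cases d with
      | zero =>
        have h := F_rec_zero m
        simp only [aArr]
        simp
        exact_mod_cast h
      | succ d =>
        have h := F_rec m d
        have e1 : aArr (d + 1 + 1) (m + 2 + 1) = (F (m + 1) (d + 1) : ℤ) := by
          simp only [aArr]
          rw [if_neg (by omega), if_neg (by omega)]
          congr 1
        have e2 : aArr (d + 1 + 1) (m + 2) = (F m (d + 1) : ℤ) := by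
          simp only [aArr]
          rw [if_neg (by omega), if_neg (by omega)]
          congr 1
        have e3 : aArr (d + 1 + 1 - 1) (m + 2) = (F m d : ℤ) := by
          simp only [aArr]
          rw [if_neg (by omega), if_neg (by omega)]
          congr 1
        rw [e1, e2, e3, h]
        push_cast
        ring

theorem bin_nat (p q : ℕ) : bin (p : ℤ) (q : ℤ) = ((p.choose q : ℕ) : ℤ) := by
  unfold bin
  by_cases h : q ≤ p
  · have h' : (0 : ℤ) ≤ (q : ℤ) ∧ (q : ℤ) ≤ (p : ℤ) := ⟨by positivity, by exact_mod_cast h⟩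
    rw [if_pos h', Int.toNat_natCast, Int.toNat_natCast]
  · have h' : ¬ ((0 : ℤ) ≤ (q : ℤ) ∧ (q : ℤ) ≤ (p : ℤ)) := by
      rintro ⟨-, h2⟩
      exact h (by exact_mod_cast h2)
    rw [if_neg h', Nat.choose_eq_zero_of_lt (by omega)]
    rfl

theorem b_two (n : ℕ) (hn : 2 ≤ n) : b 2 n = 1 := by
  rw [b, if_pos ⟨rfl, hn⟩]

theorem b_out (i n : ℕ) (h : ¬ (2 ≤ i ∧ i ≤ n)) : b i n = 0 := by
  rw [b, if_neg (by omega), if_neg (by omega)]

theorem b_rec (i n : ℕ) (hi : 3 ≤ i) (hin : i ≤ n) :
    b i n = ∑ k ∈ Finset.range (i + 1),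
          ((Nat.choose (2 * n - 2 * i + k) k : ℕ) : ℤ) *
            ∑ r ∈ Finset.Icc 1 (i / 2),
              (-1 : ℤ) ^ (r - 1) * ((Nat.choose (i - k) (i - 2 * r) : ℕ) : ℤ) * b (i - k) (n - r) := by
  rw [b, if_neg (by omega), if_pos ⟨hi, hin⟩]
  apply Finset.sum_congr rfl
  intro s hs
  have hs' := Finset.mem_range.1 hs
  have e1 : (2 * (n : ℤ) - 2 * (i : ℤ) + s) = ((2 * n - 2 * i + s : ℕ) : ℤ) := by
    push_cast [Nat.cast_sub (show 2 * i ≤ 2 * n by omega)]
    ring
  rw [e1, bin_nat]
  congr 1
  rw [Finset.sum_attach (Finset.Icc 1 n) (fun t : ℕ => (-1 : ℤ) ^ (t + 1) *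
    bin ((i : ℤ) - s) ((i : ℤ) - 2 * (t : ℤ)) * b (i - s) (n - t))]
  symm
  have hsub : Finset.Icc 1 (i / 2) ⊆ Finset.Icc 1 n := by
    intro t ht
    rw [Finset.mem_Icc] at ht ⊢
    omega
  rw [← Finset.sum_subset hsub (f := fun t : ℕ => (-1 : ℤ) ^ (t + 1) *
    bin ((i : ℤ) - s) ((i : ℤ) - 2 * (t : ℤ)) * b (i - s) (n - t))]
  · apply Finset.sum_congr rfl
    intro t ht
    rw [Finset.mem_Icc] at ht
    have e2 : ((i : ℤ) - s) = ((i - s : ℕ) : ℤ) := by
      rw [Nat.cast_sub (by omega)]
    have e3 : ((i : ℤ) - 2 * (t : ℤ)) = ((i - 2 * t : ℕ) : ℤ) := by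
      rw [Nat.cast_sub (by omega)]
      push_cast
      ring
    have e4 : (-1 : ℤ) ^ (t - 1) = (-1 : ℤ) ^ (t + 1) := by
      obtain ⟨u, rfl⟩ : ∃ u, t = u + 1 := ⟨t - 1, by omega⟩
      rw [Nat.add_sub_cancel, pow_succ, pow_succ]
      ring
    rw [e2, e3, bin_nat, e4]
  · intro t ht hnt
    rw [Finset.mem_Icc] at ht hnt
    have : ¬ ((0 : ℤ) ≤ (i : ℤ) - 2 * (t : ℤ) ∧ (i : ℤ) - 2 * (t : ℤ) ≤ (i : ℤ) - s) := by
      omega
    rw [bin, if_neg this]
    ring

theorem abs_b_le_simsunNumber (n i : ℕ) (hi : 2 ≤ i) (hin : i ≤ n) :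
    |b i n| ≤ (simsunNumber (2 * n - 2) (i - 1) : ℤ) := by
  have h := Pool.Agent.Helper40.Simsun.abs_b_le aArr_isA b_two b_out b_rec n i hi hin
  have e : aArr i (2 * n) = (simsunNumber (2 * n - 2) (i - 1) : ℤ) := by
    simp only [aArr]
    rw [if_neg (by omega), if_neg (by omega), simsunNumber_eq]
  rwa [e] at h

end Pool.Agent.Helper72.OWN
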